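import Mathlib
import Pool.Agent.H.MP_8ac988_an.A

set_option autoImplicit false

open Filter MeasureTheory Topology

namespace Pool.Agent.Results.MP_8ac988_an.NotOneStep

/-- Folner sequences in the positive quadrant of the plane lattice -/
def IsFolner (I : ℕ → Finset (ℤ × ℤ)) : Prop :=
  (∀ j, (I j).Nonempty ∧ ∀ p ∈ I j, 1 ≤ p.1 ∧ 1 ≤ p.2) ∧
  ∀ k : ℤ × ℤ, Tendsto
    (fun j => ((symmDiff ((I j).image (· + k)) (I j)).card : ℝ) / (I j).card) atTop (𝓝 0)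

open Pool.Agent.H.MP_8ac988_an

theorem result :
    ∃ (Z : Type) (_ : MeasurableSpace Z) (_ : StandardBorelSpace Z) (μ : Measure Z)
      (_ : IsProbabilityMeasure μ) (T₁ T₂ : Equiv.Perm Z) (f g h : Z → ℂ),
      MeasurePreserving T₁ μ μ ∧ MeasurePreserving T₁.symm μ μ ∧
      MeasurePreserving T₂ μ μ ∧ MeasurePreserving T₂.symm μ μ ∧ Commute T₁ T₂ ∧
      (∀ (m n : ℤ) (x : Z), (T₁ ^ m * T₂ ^ n) x = x → m = 0 ∧ n = 0) ∧
      Measurable f ∧ Measurable g ∧ Measurable h ∧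
      (∀ x, ‖f x‖ ≤ 1 ∧ ‖g x‖ ≤ 1 ∧ ‖h x‖ ≤ 1) ∧
      ∃ I : ℕ → Finset (ℤ × ℤ), IsFolner I ∧
        ∀ (G : Type) [CommGroup G] [TopologicalSpace G] [IsTopologicalGroup G] (Γ : Subgroup G)
          [CompactSpace (G ⧸ Γ)] (Ψ : C(G ⧸ Γ, ℂ)) (τ₁ τ₂ : G),
          ∀ᶠ j in atTop, (1 / 4 : ℝ) ≤ (∑ p ∈ I j,
            ‖(∫ x, f x * g ((T₁ ^ p.1 * T₂ ^ p.2) x) * h ((T₁ ^ p.2 * T₂ ^ p.1) x) ∂μ) -
              Ψ (QuotientGroup.mk (τ₁ ^ p.1 * τ₂ ^ p.2))‖ ^ 2) / (I j).card := by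
  refine ⟨X, inferInstance, inferInstance, mu, inferInstance, (Tq 1 0).toEquiv, (Tq 0 1).toEquiv,
    fun p => E ((-2 : ℤ) • p.2), fun p => E p.2, fun p => E p.2, act_mp _ _, act_mp _ _,
    act_mp _ _, act_mp _ _, ?_, ?_, ?_, ?_, ?_, fun x => ⟨(E_norm _).le, (E_norm _).le,
    (E_norm _).le⟩, sq, ⟨fun j => ⟨⟨(1, 1), ?_⟩, ?_⟩, sq_folner⟩, ?_⟩
  · refine Equiv.ext fun p => ?_
    show act 1 0 (act 0 1 p) = act 0 1 (act 1 0 p)
    rw [act_add, act_add]; rfl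
  · intro m n x hx
    rw [Tq_pow] at hx
    have h1 : x.1 + (m - n) • al = x.1 := congrArg Prod.fst hx
    have h2 : x.2 + ((2 * (m - n)) • x.1 + ((m - n) ^ 2 + n) • al) = x.2 := congrArg Prod.snd hx
    have h3 := al_free _ (add_eq_left.1 h1)
    rw [h3] at h2
    have h4 : n • al = 0 := by simpa using h2
    have h5 := al_free _ h4
    omega
  · exact (E_cont.comp (by fun_prop)).measurable
  · exact (E_cont.comp continuous_snd).measurable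
  · exact (E_cont.comp continuous_snd).measurable
  · simp [H.MP_8ac988_an.sq]
  · intro p hp
    simp only [H.MP_8ac988_an.sq, Finset.mem_product, Finset.mem_Icc] at hp
    exact ⟨hp.1.1, hp.2.1⟩
  · intro G _ _ _ Γ _ Ψ τ₁ τ₂
    simp only [Tq_pow, corr, QuotientGroup.mk_mul, QuotientGroup.mk_zpow]
    exact far Ψ _ _

end Pool.Agent.Results.MP_8ac988_an.NotOneStep
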